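import Pool.Agent.helper68.QZ.Spec

set_option autoImplicit false

namespace Pool.Agent.QZ

open N1f72dd46 Filter MeasureTheory Complex Metric Pool.Agent.helper6.LD
open scoped ComplexConjugate

theorem HP : HP_stmt := by
  refine ⟨fun ω hω h => ?_, ?_⟩
  · refine ⟨(1 - ω) / 4, by linarith, ?_⟩
    have h1 := h ((1 - ω) / 4) (by linarith)
    have h2 : (1 + ω / 2 + (1 - ω) / 4 : ℝ) = 3 / 2 - (1 - ω) / 4 := by ring
    rw [h2] at h1
    exact h1
  · rintro ⟨o, ho, h⟩
    intro ε hε
    have h1 : Tendsto o atTop (nhds 0) := by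
      have := (Asymptotics.isLittleO_one_iff ℝ).1 ho
      exact this
    have h2 : ∀ᶠ n in atTop, o n < ε := h1.eventually (gt_mem_nhds hε)
    filter_upwards [h, h2, eventually_ge_atTop 1] with n h3 h4 h5
    have h6 : (n : ℝ) ^ (1 + o n) ≤ (n : ℝ) ^ (1 + (0 : ℝ) / 2 + ε) := by
      apply Real.rpow_le_rpow_of_exponent_le
      · exact_mod_cast h5
      · linarith
    linarith

end Pool.Agent.QZ
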